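import Pool.Agent.SobEnt.FINAL
import Pool.Agent.SobEnt.MAIN
import Pool.Agent.SobEnt.MESH
import Pool.Agent.SobEnt.SUB
import Pool.Agent.SobEnt.POW
import Pool.Agent.SobEnt.RU
import Pool.Agent.SobEnt.GEN
import Pool.Agent.SobEnt.CONT
import Pool.Agent.SobEnt.COMP
import Pool.Agent.SobEnt.TOWER
import Pool.Agent.SobEnt.BLOCK
import Pool.Agent.SobEnt.DYN
import Pool.Agent.SobEnt.LOC
import Pool.Agent.SobEnt.SVD
import Pool.Agent.SobEnt.VK
import Pool.Agent.SobEnt.LAB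
import Pool.Agent.SobEnt.PROD
import Pool.Agent.SobEnt.PI
import Pool.Agent.SobEnt.TWIST
import Pool.Agent.SobEnt.LIPM
import Pool.Agent.SobEnt.VBAS
import Pool.Agent.SobEnt.VORO
import Pool.Agent.SobEnt.RUELLE
import Pool.Agent.SobEnt.FIX
import Pool.Agent.SobEnt.CD
import Pool.Agent.SobEnt.CDAE
import Pool.Agent.SobEnt.COCY
import Pool.Agent.SobEnt.COV
import Pool.Agent.SobEnt.PHI
import Pool.Agent.SobEnt.STRAIGHT
import Pool.Agent.SobEnt.BILIP
import Pool.Agent.SobEnt.GRAM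
import Pool.Agent.SobEnt.ATLAS
import Pool.Agent.SobEnt.AMB
import Pool.Agent.SobEnt.AMBU
import Pool.Agent.SobEnt.ENTB
import Pool.Agent.SobEnt.CHAIN
import Pool.Agent.SobEnt.LABX
import Pool.Agent.SobEnt.CFACT
import Pool.Agent.SobEnt.KLOG
import Pool.Agent.SobEnt.SHIFT

/-!
# MP_07df6b_an: zero metric entropy is generic among Sobolev conservative homeomorphisms
-/

open MeasureTheory Filter Topology Set Bundle
open scoped ENNReal NNReal Manifold ContDiff
open Pool.Agent.SobEnt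

universe u v w

namespace Pool.Agent.Results.MP_07df6b_an.ZeroEntropyGeneric

theorem hGen : T_GEN.{u} := p_GEN
theorem hMain : T_MAIN.{u} := by
  have hV : T_VBAS.{u} := p_VBAS
  have hL : T_LIPM.{u} := p_LIPM
  have hCD : T_CD.{u} := p_CD
  have hPOW : T_POW.{u} := p_POW p_SUB
  have hRU : T_RUELLE.{u} := p_RUELLE hV p_VORO p_RU p_GEN hL
  have hFIX : T_FIX.{u} := p_FIX hV
  have hCOCY : T_COCY.{u} := p_COCY hCD (p_CDAE hV) p_COMP p_SVD p_LAB hV
  exact p_MAIN hV p_TOWER p_SHIFT hCOCY p_SVD p_VK p_LAB p_LABX p_PROD p_PI (p_COV hV)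
    (p_PHI p_TWIST hV) (p_CFACT hV) p_DYN (p_CHAIN p_LOC hCD) p_KLOG
    (p_ENTB hPOW hRU p_BLOCK hFIX hL hV) hL

/-- Zero metric entropy is generic in `M^p_lam(X)`, for every `0 < p < ∞`, for every compact
connected smooth Riemannian manifold `X` of dimension at least two. -/
theorem result {E : Type v} [NormedAddCommGroup E] [InnerProductSpace ℝ E]
    [FiniteDimensional ℝ E] [MeasurableSpace E] [BorelSpace E] (hE : 2 ≤ Module.finrank ℝ E)
    {X : Type u} [MetricSpace X] [CompactSpace X] [ConnectedSpace X]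
    [ChartedSpace E X] [IsManifold 𝓘(ℝ, E) ∞ X]
    [RiemannianBundle (fun x : X => TangentSpace 𝓘(ℝ, E) x)]
    [IsContMDiffRiemannianBundle 𝓘(ℝ, E) ∞ E (fun x : X => TangentSpace 𝓘(ℝ, E) x)]
    [IsRiemannianManifold 𝓘(ℝ, E) X] [MeasurableSpace X] [BorelSpace X]
    (lam : Measure X) (hlam : IsRiemannianVolume E lam)
    {F : Type w} [NormedAddCommGroup F] [InnerProductSpace ℝ F] [FiniteDimensional ℝ F]
    (ι : X → F) (hι : ContMDiff 𝓘(ℝ, E) 𝓘(ℝ, F) ∞ ι) (_hinj : Function.Injective ι)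
    (himm : ∀ x, Function.Injective (mfderiv 𝓘(ℝ, E) 𝓘(ℝ, F) ι x)) (p : ℝ) (hp : 0 < p) :
    {u : SobClass E lam p ι | ksEntropy (nrm lam) u.1.1 = 0} ∈
      residual (SobClass E lam p ι) := by
  have : GoodManifold E X := ⟨inferInstance, inferInstance, inferInstance⟩
  obtain ⟨V⟩ := p_ATLAS p_STRAIGHT p_BILIP p_GRAM E X lam (by omega) hlam
  exact p_FINAL p_MESH p_SUB p_GEN p_CONT hMain p_VBAS hE lam V ι
    (fun g g' G G' x => p_AMBU E X F ι g g' G G' x) (p_AMB E X F ι hι himm) p hp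

end Pool.Agent.Results.MP_07df6b_an.ZeroEntropyGeneric
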